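import Mathlib

namespace Pool.Agent.Lib.MP_0bc917_co

/-- `π ∈ S_n` contains the uniform distant pattern `dist_r(q)`, the pattern `q` being given in
one-line form `q 0, …, q (m-1)`: there are positions `i 0, …, i (m-1)` with
`i (j+1) - i j ≥ r + 1` such that `π (i a) < π (i b)` iff `q a < q b`. -/
def ContainsDist {m n : ℕ} (r : ℕ) (q : Fin m → ℕ) (π : Equiv.Perm (Fin n)) : Prop :=
  ∃ i : Fin m → Fin n,
    (∀ a b : Fin m, b.val = a.val + 1 → (i a).val + r + 1 ≤ (i b).val) ∧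
    (∀ a b : Fin m, π (i a) < π (i b) ↔ q a < q b)

/-- `|Av_n(dist_r(q))|`: the number of `π ∈ S_n` avoiding `dist_r(q)`. -/
noncomputable def avCount {m : ℕ} (r : ℕ) (q : Fin m → ℕ) (n : ℕ) : ℕ :=
  Nat.card {π : Equiv.Perm (Fin n) // ¬ ContainsDist r q π}

end Pool.Agent.Lib.MP_0bc917_co
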