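import Mathlib
import Pool.Agent.Lib.MP_0bc917_co.Defs

namespace Pool.Agent.Lib.MP_0bc917_co.Gen

open Classical

variable {n l : ℕ} (r : ℕ) (σ : Fin l → ℕ)

/-- the cell `(i,v)` has a distant copy of `σ` to its upper right -/
def Y (π : Equiv.Perm (Fin n)) (i v : ℕ) : Prop :=
  ∃ j : Fin l → Fin n,
    (∀ a b : Fin l, b.val = a.val + 1 → (j a).val + r + 1 ≤ (j b).val) ∧
    (∀ a b : Fin l, π (j a) < π (j b) ↔ σ a < σ b) ∧
    ∀ a, i + r + 1 ≤ (j a).val ∧ v < (π (j a)).val

def A (π : Equiv.Perm (Fin n)) : Prop :=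
  ∀ a b : Fin n, a.val + r + 1 ≤ b.val → (π b).val < (π a).val → ¬ Y r σ π b.val (π a).val

def B (π : Equiv.Perm (Fin n)) : Prop :=
  ∀ a b : Fin n, a.val + r + 1 ≤ b.val → (π a).val < (π b).val → ¬ Y r σ π b.val (π b).val

/-- the last position beyond `b` at which the value `y` is skipped (`b` if there is none) -/
noncomputable def SS (π : Equiv.Perm (Fin n)) (b y : ℕ) : ℕ :=
  max b ((Finset.univ.filter (fun c : Fin n => b < c.val ∧ (π c).val < y ∧ Y r σ π c.val y)).sup
    (fun c => c.val))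

noncomputable def key (π : Equiv.Perm (Fin n)) (a : Fin n) : ℕ :=
  SS r σ π a.val (π a).val * n + (π a).val

def Rel (π ρ : Equiv.Perm (Fin n)) : Prop :=
  (∀ i v, Y r σ ρ i v ↔ Y r σ π i v) ∧ (∀ i : Fin n, ¬ Y r σ π i.val (π i).val → ρ i = π i) ∧
  (∀ i : Fin n, Y r σ π i.val (π i).val → Y r σ π i.val (ρ i).val) ∧
  (∀ a b : Fin n, Y r σ π a.val (π a).val → Y r σ π b.val (π b).val →
    key r σ π a < key r σ π b → (ρ b).val < (ρ a).val)

variable {r σ}

lemma Y.mono {π : Equiv.Perm (Fin n)} {i v i' v' : ℕ} (h : Y r σ π i v) (hi : i' ≤ i)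
    (hv : v' ≤ v) : Y r σ π i' v' := by
  obtain ⟨j, h1, h2, h3⟩ := h
  exact ⟨j, h1, h2, fun a => ⟨by have := (h3 a).1; omega, by have := (h3 a).2; omega⟩⟩

lemma val_ne {π : Equiv.Perm (Fin n)} {a b : Fin n} (h : a ≠ b) : (π a).val ≠ (π b).val :=
  fun h' => h (π.injective (Fin.ext h'))

lemma Y.white {π : Equiv.Perm (Fin n)} {i v : ℕ} (h : Y r σ π i v) :
    ∃ j : Fin l → Fin n,
      (∀ a b : Fin l, b.val = a.val + 1 → (j a).val + r + 1 ≤ (j b).val) ∧
      (∀ a b : Fin l, π (j a) < π (j b) ↔ σ a < σ b) ∧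
      (∀ a, i + r + 1 ≤ (j a).val ∧ v < (π (j a)).val) ∧
      ∀ a, ¬ Y r σ π (j a).val (π (j a)).val := by
  induction' hN : n - i using Nat.strong_induction_on with N ih generalizing i v
  obtain ⟨j, h1, h2, h3⟩ := h
  by_cases hw : ∀ a, ¬ Y r σ π (j a).val (π (j a)).val
  · exact ⟨j, h1, h2, h3, hw⟩
  · push Not at hw
    obtain ⟨a, ha⟩ := hw
    have q1 := (h3 a).1
    have q2 := (h3 a).2
    obtain ⟨j', g1, g2, g3, g4⟩ := ih (n - (j a).val) (by have := (j a).isLt; omega) ha rfl
    exact ⟨j', g1, g2, fun b => ⟨by have := (g3 b).1; omega, by have := (g3 b).2; omega⟩, g4⟩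

lemma Y_eq {π ρ : Equiv.Perm (Fin n)} (hw : ∀ i : Fin n, ¬ Y r σ π i.val (π i).val → ρ i = π i)
    (hr : ∀ i : Fin n, Y r σ π i.val (π i).val → Y r σ π i.val (ρ i).val) (i v : ℕ) :
    Y r σ ρ i v ↔ Y r σ π i v := by
  constructor
  · rintro ⟨j, h1, h2, h3⟩
    by_cases hj : ∀ a, ¬ Y r σ π (j a).val (π (j a)).val
    · refine ⟨j, h1, fun a b => ?_, fun a => ?_⟩
      · rw [← hw _ (hj a), ← hw _ (hj b)]; exact h2 a b
      · rw [← hw _ (hj a)]; exact h3 a
    · push Not at hj
      obtain ⟨a, ha⟩ := hj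
      exact (hr _ ha).mono (by have := (h3 a).1; omega) (h3 a).2.le
  · intro h
    obtain ⟨j, h1, h2, h3, h4⟩ := h.white
    refine ⟨j, h1, fun a b => ?_, fun a => ?_⟩
    · rw [hw _ (h4 a), hw _ (h4 b)]; exact h2 a b
    · rw [hw _ (h4 a)]; exact h3 a

lemma le_SS (π : Equiv.Perm (Fin n)) (b y : ℕ) : b ≤ SS r σ π b y := le_max_left _ _

lemma le_SS_of {π : Equiv.Perm (Fin n)} {b y : ℕ} {c : Fin n} (h1 : b < c.val)
    (h2 : (π c).val < y) (h3 : Y r σ π c.val y) : c.val ≤ SS r σ π b y := by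
  refine le_trans ?_ (le_max_right _ _)
  exact Finset.le_sup (f := fun c : Fin n => c.val) (by simp [h1, h2, h3])

lemma SS_cases (π : Equiv.Perm (Fin n)) (b y : ℕ) : SS r σ π b y = b ∨
    ∃ c : Fin n, b < c.val ∧ (π c).val < y ∧ Y r σ π c.val y ∧ SS r σ π b y = c.val := by
  unfold SS
  set s := Finset.univ.filter (fun c : Fin n => b < c.val ∧ (π c).val < y ∧ Y r σ π c.val y)
    with hs
  rcases s.eq_empty_or_nonempty with h | h
  · left; rw [h]; simp
  · obtain ⟨c, hc, he⟩ := Finset.exists_mem_eq_sup s h (fun c : Fin n => c.val)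
    rw [hs, Finset.mem_filter] at hc
    right
    refine ⟨c, hc.2.1, hc.2.2.1, hc.2.2.2, ?_⟩
    rw [he]; exact max_eq_right hc.2.1.le

lemma SS_max (π : Equiv.Perm (Fin n)) {a b : ℕ} (y : ℕ) (h : a ≤ b) :
    SS r σ π b y = max b (SS r σ π a y) := by
  apply le_antisymm
  · rcases SS_cases (r := r) (σ := σ) π b y with e | ⟨c, h1, h2, h3, e⟩
    · rw [e]; exact le_max_left _ _
    · rw [e]; exact le_trans (le_SS_of (by omega) h2 h3) (le_max_right _ _)
  · apply max_le (le_SS π b y)
    rcases SS_cases (r := r) (σ := σ) π a y with e | ⟨c, h1, h2, h3, e⟩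
    · rw [e]; exact h.trans (le_SS π b y)
    · rw [e]
      rcases Nat.lt_or_ge b c.val with g | g
      · exact le_SS_of g h2 h3
      · exact g.trans (le_SS π b y)

lemma SS_congr {π π' : Equiv.Perm (Fin n)} (hY : ∀ i v, Y r σ π i v ↔ Y r σ π' i v) {b : ℕ}
    (hag : ∀ i : Fin n, b < i.val → π i = π' i) (y : ℕ) : SS r σ π b y = SS r σ π' b y := by
  unfold SS
  congr 2
  ext c
  simp only [Finset.mem_filter, Finset.mem_univ, true_and, hY]
  constructor
  · rintro ⟨h1, h2, h3⟩; exact ⟨h1, by rw [← hag c h1]; exact h2, h3⟩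
  · rintro ⟨h1, h2, h3⟩; exact ⟨h1, by rw [hag c h1]; exact h2, h3⟩

lemma lex_lt {s t x y : ℕ} (hx : x < n) (hy : y < n) :
    s * n + x < t * n + y ↔ s < t ∨ (s = t ∧ x < y) := by
  constructor
  · intro h
    rcases lt_trichotomy s t with g | g | g
    · exact Or.inl g
    · subst g; exact Or.inr ⟨rfl, by omega⟩
    · have : (t + 1) * n ≤ s * n := Nat.mul_le_mul_right _ g
      rw [Nat.add_mul] at this
      omega
  · rintro (g | ⟨g, g'⟩)
    · have : (s + 1) * n ≤ t * n := Nat.mul_le_mul_right _ g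
      rw [Nat.add_mul] at this
      omega
    · subst g; omega

lemma key_lt {π : Equiv.Perm (Fin n)} {a b : Fin n} : key r σ π a < key r σ π b ↔
    SS r σ π a.val (π a).val < SS r σ π b.val (π b).val ∨
      (SS r σ π a.val (π a).val = SS r σ π b.val (π b).val ∧ (π a).val < (π b).val) :=
  lex_lt (π a).isLt (π b).isLt

lemma key_total {π : Equiv.Perm (Fin n)} {a b : Fin n} (h : a ≠ b) :
    key r σ π a < key r σ π b ∨ key r σ π b < key r σ π a := by
  rw [key_lt, key_lt]
  have := val_ne (π := π) h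
  omega

lemma Y_SS {π : Equiv.Perm (Fin n)} {b y : ℕ} (h : Y r σ π b y) : Y r σ π (SS r σ π b y) y := by
  rcases SS_cases (r := r) (σ := σ) π b y with e | ⟨c, -, -, h3, e⟩
  · rw [e]; exact h
  · rw [e]; exact h3

/-- which earlier positions beat `b` is read off the part of `π` beyond `b` -/
lemma key_iff {π : Equiv.Perm (Fin n)} {a b : Fin n} (hab : a.val < b.val) :
    key r σ π b < key r σ π a ↔ Y r σ π b.val (π a).val ∧
      SS r σ π b.val (π b).val * n + (π b).val < SS r σ π b.val (π a).val * n + (π a).val := by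
  rw [key_lt, lex_lt (π b).isLt (π a).isLt, SS_max π (π a).val hab.le]
  have h0 := le_SS (r := r) (σ := σ) π b.val (π b).val
  constructor
  · intro h
    refine ⟨?_, by omega⟩
    rcases SS_cases (r := r) (σ := σ) π a.val (π a).val with e | ⟨c, -, -, h3, e⟩
    · omega
    · exact h3.mono (by omega) le_rfl
  · rintro ⟨h1, h2⟩
    by_cases hv : (π b).val < (π a).val
    · have := le_SS_of hab hv h1
      omega
    · omega

lemma no_gap {π π' ρ : Equiv.Perm (Fin n)} (h : Rel r σ π ρ) (h' : Rel r σ π' ρ) {b : Fin n}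
    (hag : ∀ i : Fin n, b.val < i.val → π i = π' i) (hb : Y r σ π b.val (π b).val)
    (hb' : Y r σ π' b.val (π' b).val) :
    ¬ SS r σ π b.val (π' b).val * n + (π' b).val < SS r σ π b.val (π b).val * n + (π b).val := by
  intro hlt
  obtain ⟨y1, w1, r1, u1⟩ := h
  obtain ⟨y2, w2, r2, u2⟩ := h'
  have hY : ∀ i v, Y r σ π i v ↔ Y r σ π' i v := fun i v => (y1 i v).symm.trans (y2 i v)
  have hS := SS_congr hY hag
  -- the positions before `b` with a smaller `ρ` value
  set D := Finset.univ.filter (fun a : Fin n => a.val < b.val ∧ (ρ a).val < (ρ b).val) with hD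
  have d1 : ∀ a : Fin n, a.val < b.val → (ρ a).val < (ρ b).val → key r σ π b < key r σ π a := by
    intro a h1 h2
    have ha : Y r σ π a.val (π a).val := by
      by_contra hc
      have := (r1 b hb).mono h1.le h2.le
      rw [w1 a hc] at this
      exact hc this
    have hne : a ≠ b := by rintro rfl; omega
    rcases key_total (r := r) (σ := σ) (π := π) hne with g | g
    · have := u1 a b ha hb g; omega
    · exact g
  have d2 : ∀ a : Fin n, a.val < b.val → key r σ π' b < key r σ π' a → (ρ a).val < (ρ b).val := by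
    intro a h1 h2
    exact u2 b a hb' (((key_iff h1).1 h2).1.mono h1.le le_rfl) h2
  have into : ∀ y : Fin n, (π.symm y).val ≤ b.val → Y r σ π b.val y.val →
      SS r σ π b.val (π' b).val * n + (π' b).val < SS r σ π b.val y.val * n + y.val →
      π'.symm y ∈ D := by
    intro y h1 h2 h3
    have p1 : (π'.symm y).val < b.val := by
      by_contra hc
      rcases Nat.lt_or_ge b.val (π'.symm y).val with g | g
      · have := hag _ g
        rw [Equiv.apply_symm_apply] at this
        have e : π.symm y = π'.symm y := by rw [Equiv.symm_apply_eq]; exact this.symm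
        rw [e] at h1; omega
      · have e : π'.symm y = b := Fin.ext (by omega)
        have : y = π' b := by rw [← e, Equiv.apply_symm_apply]
        rw [this] at h3; omega
    rw [hD, Finset.mem_filter]
    refine ⟨Finset.mem_univ _, p1, d2 _ p1 ((key_iff p1).2 ?_)⟩
    rw [Equiv.apply_symm_apply, ← hY, ← hS, ← hS]
    exact ⟨h2, h3⟩
  have hbD : b ∉ D := by simp [hD]
  have hmap : ∀ a ∈ insert b D, π'.symm (π a) ∈ D := by
    intro a ha
    rcases Finset.mem_insert.1 ha with rfl | ha
    · exact into _ (by simp) hb hlt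
    · rw [hD, Finset.mem_filter] at ha
      obtain ⟨g1, g2⟩ := (key_iff ha.2.1).1 (d1 a ha.2.1 ha.2.2)
      exact into _ (by simpa using ha.2.1.le) g1 (hlt.trans g2)
  have := Finset.card_le_card_of_injOn (fun a => π'.symm (π a)) (s := insert b D) (t := D)
    (fun a ha => hmap a (by simpa using ha))
    (fun a _ a' _ e => π.injective (π'.symm.injective e))
  rw [Finset.card_insert_of_notMem hbD] at this
  omega

lemma rel_unique {π π' ρ : Equiv.Perm (Fin n)} (h : Rel r σ π ρ) (h' : Rel r σ π' ρ) :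
    π = π' := by
  have hY : ∀ i v, Y r σ π i v ↔ Y r σ π' i v := fun i v => (h.1 i v).symm.trans (h'.1 i v)
  have hred : ∀ i : Fin n, Y r σ π i.val (π i).val ↔ Y r σ π' i.val (π' i).val := by
    intro i
    constructor
    · intro hi
      by_contra hc
      have := h.2.2.1 i hi
      rw [h'.2.1 i hc, hY] at this
      exact hc this
    · intro hi
      by_contra hc
      have := h'.2.2.1 i hi
      rw [h.2.1 i hc, ← hY] at this
      exact hc this
  have main : ∀ N, ∀ i : Fin n, n - N ≤ i.val → π i = π' i := by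
    intro N
    induction N with
    | zero => intro i hi; have := i.isLt; omega
    | succ N ih =>
      intro b hb
      by_cases hb' : n - N ≤ b.val
      · exact ih b hb'
      have hag : ∀ i : Fin n, b.val < i.val → π i = π' i := fun i hi => ih i (by omega)
      by_cases hr : Y r σ π b.val (π b).val
      swap
      · rw [← h.2.1 b hr, h'.2.1 b (fun hc => hr ((hred b).2 hc))]
      have hr' := (hred b).1 hr
      have n1 := no_gap h h' hag hr hr'
      have n2 := no_gap h' h (fun i hi => (hag i hi).symm) hr' hr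
      rw [← SS_congr hY hag, ← SS_congr hY hag] at n2
      rw [lex_lt (π' b).isLt (π b).isLt] at n1
      rw [lex_lt (π b).isLt (π' b).isLt] at n2
      exact Fin.ext (by omega)
  ext i
  rw [main n i (by omega)]

end Pool.Agent.Lib.MP_0bc917_co.Gen
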