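import Mathlib
import Pool.Agent.Lib.MP_0bc917_co.Defs

namespace Pool.Agent.Lib.MP_0bc917_co

variable {n : ℕ}

/-- the cell `(i,v)` has a distant descent to its upper right -/
def Y (π : Equiv.Perm (Fin n)) (i v : ℕ) : Prop :=
  ∃ j k : Fin n, i + 2 ≤ j.val ∧ j.val + 2 ≤ k.val ∧ v < (π k).val ∧ (π k).val < (π j).val

def A (π : Equiv.Perm (Fin n)) : Prop :=
  ∀ a b : Fin n, a.val + 2 ≤ b.val → (π b).val < (π a).val → ¬ Y π b.val (π a).val

def B (π : Equiv.Perm (Fin n)) : Prop :=
  ∀ a b : Fin n, a.val + 2 ≤ b.val → (π a).val < (π b).val → ¬ Y π b.val (π b).val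

def T (π : Equiv.Perm (Fin n)) (b : Fin n) : Prop :=
  ∃ a : Fin n, a.val < b.val ∧ (π b).val < (π a).val ∧ Y π b.val (π a).val

def S (π : Equiv.Perm (Fin n)) (b : Fin n) : Prop :=
  T π b ∧ ¬ ∃ c : Fin n, c.val = b.val + 1 ∧ T π c

def U (ρ : Equiv.Perm (Fin n)) (b : Fin n) : Prop :=
  Y ρ b.val (ρ b).val ∧ ∃ a : Fin n, a.val + 1 = b.val ∧ (ρ a).val < (ρ b).val

def Rel (π ρ : Equiv.Perm (Fin n)) : Prop :=
  (∀ i v, Y ρ i v ↔ Y π i v) ∧ (∀ i : Fin n, ¬ Y π i.val (π i).val → ρ i = π i) ∧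
  (∀ i : Fin n, Y π i.val (π i).val → Y π i.val (ρ i).val) ∧ (∀ b, U ρ b ↔ S π b)

lemma Y.mono {π : Equiv.Perm (Fin n)} {i v i' v' : ℕ} (h : Y π i v) (hi : i' ≤ i) (hv : v' ≤ v) :
    Y π i' v' := by
  obtain ⟨j, k, h1, h2, h3, h4⟩ := h
  exact ⟨j, k, by omega, h2, by omega, h4⟩

lemma val_ne {π : Equiv.Perm (Fin n)} {a b : Fin n} (h : a.val ≠ b.val) :
    (π a).val ≠ (π b).val := by
  intro h'
  exact h (congrArg Fin.val (π.injective (Fin.ext h')))

lemma contains_2143 (π : Equiv.Perm (Fin n)) : ¬ ContainsDist 1 ![2, 1, 4, 3] π ↔ A π := by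
  constructor
  · intro h a b hab hv hY
    obtain ⟨j, k, h1, h2, h3, h4⟩ := hY
    apply h
    refine ⟨![a, b, j, k], ?_, ?_⟩
    · intro x y hxy
      fin_cases x <;> fin_cases y <;> simp at hxy ⊢ <;> omega
    · intro x y
      fin_cases x <;> fin_cases y <;> simp [-Fin.val_fin_lt, -Fin.val_fin_le, Fin.lt_def] <;> omega
  · rintro h ⟨i, h1, h2⟩
    have a1 := h1 0 1 rfl
    have a2 := h1 1 2 rfl
    have a3 := h1 2 3 rfl
    have b1 := (h2 1 0).2 (by simp)
    have b2 := (h2 0 3).2 (by simp)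
    have b3 := (h2 3 2).2 (by simp)
    rw [Fin.lt_def] at b1 b2 b3
    exact h (i 0) (i 1) (by omega) b1 ⟨i 2, i 3, by omega, by omega, b2, b3⟩

lemma contains_1243 (π : Equiv.Perm (Fin n)) : ¬ ContainsDist 1 ![1, 2, 4, 3] π ↔ B π := by
  constructor
  · intro h a b hab hv hY
    obtain ⟨j, k, h1, h2, h3, h4⟩ := hY
    apply h
    refine ⟨![a, b, j, k], ?_, ?_⟩
    · intro x y hxy
      fin_cases x <;> fin_cases y <;> simp at hxy ⊢ <;> omega
    · intro x y
      fin_cases x <;> fin_cases y <;> simp [-Fin.val_fin_lt, -Fin.val_fin_le, Fin.lt_def] <;> omega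
  · rintro h ⟨i, h1, h2⟩
    have a1 := h1 0 1 rfl
    have a2 := h1 1 2 rfl
    have a3 := h1 2 3 rfl
    have b1 := (h2 0 1).2 (by simp)
    have b2 := (h2 1 3).2 (by simp)
    have b3 := (h2 3 2).2 (by simp)
    rw [Fin.lt_def] at b1 b2 b3
    exact h (i 0) (i 1) (by omega) b1 ⟨i 2, i 3, by omega, by omega, b2, b3⟩

/-- every cell of `Y` has a witness made of white entries -/
lemma Y.white {π : Equiv.Perm (Fin n)} {i v : ℕ} (h : Y π i v) :
    ∃ j k : Fin n, i + 2 ≤ j.val ∧ j.val + 2 ≤ k.val ∧ v < (π k).val ∧ (π k).val < (π j).val ∧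
      ¬ Y π j.val (π j).val ∧ ¬ Y π k.val (π k).val := by
  induction' hN : n - i using Nat.strong_induction_on with N ih generalizing i v
  obtain ⟨j, k, h1, h2, h3, h4⟩ := h
  by_cases hj : Y π j.val (π j).val
  · obtain ⟨j', k', g1, g2, g3, g4, g5, g6⟩ := ih (n - j.val) (by have := j.isLt; omega) hj rfl
    exact ⟨j', k', by omega, g2, by omega, g4, g5, g6⟩
  · by_cases hk : Y π k.val (π k).val
    · obtain ⟨j', k', g1, g2, g3, g4, g5, g6⟩ := ih (n - k.val) (by have := k.isLt; omega) hk rfl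
      exact ⟨j', k', by omega, g2, by omega, g4, g5, g6⟩
    · exact ⟨j, k, h1, h2, h3, h4, hj, hk⟩

lemma Y_eq {π ρ : Equiv.Perm (Fin n)} (hw : ∀ i : Fin n, ¬ Y π i.val (π i).val → ρ i = π i)
    (hr : ∀ i : Fin n, Y π i.val (π i).val → Y π i.val (ρ i).val) (i v : ℕ) :
    Y ρ i v ↔ Y π i v := by
  constructor
  · rintro ⟨j, k, h1, h2, h3, h4⟩
    by_cases hj : Y π j.val (π j).val
    · exact (hr j hj).mono (by omega) (by omega)
    · by_cases hk : Y π k.val (π k).val
      · exact (hr k hk).mono (by omega) (by omega)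
      · rw [hw j hj, hw k hk] at h4
        rw [hw k hk] at h3
        exact ⟨j, k, h1, h2, h3, h4⟩
  · intro h
    obtain ⟨j, k, h1, h2, h3, h4, h5, h6⟩ := h.white
    refine ⟨j, k, h1, h2, ?_, ?_⟩
    · rw [hw k h6]; exact h3
    · rw [hw k h6, hw j h5]; exact h4

lemma T_adj {π : Equiv.Perm (Fin n)} (hA : A π) {a b : Fin n} (h1 : a.val < b.val)
    (h2 : (π b).val < (π a).val) (h3 : Y π b.val (π a).val) : a.val + 1 = b.val := by
  by_contra hne
  exact hA a b (by omega) h2 h3

/-- transfer of a witness of `T` between two permutations agreeing from `b` on -/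
lemma T_transfer {π π' : Equiv.Perm (Fin n)} (hY : ∀ i v, Y π i v ↔ Y π' i v) {b : Fin n}
    (hag : ∀ i : Fin n, b.val ≤ i.val → π i = π' i) (h : T π b) : T π' b := by
  obtain ⟨a, h1, h2, h3⟩ := h
  refine ⟨π'.symm (π a), ?_, ?_, ?_⟩
  · by_contra hc
    have := hag (π'.symm (π a)) (by omega)
    rw [Equiv.apply_symm_apply] at this
    have := π.injective this
    rw [this] at hc
    omega
  · rw [Equiv.apply_symm_apply, ← hag b le_rfl]; exact h2
  · rw [Equiv.apply_symm_apply, ← hY]; exact h3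

lemma step_aux {π π' : Equiv.Perm (Fin n)} (hA : A π) (hY : ∀ i v, Y π i v ↔ Y π' i v)
    {b : Fin n} (hag : ∀ i : Fin n, b.val < i.val → π i = π' i)
    (hred : Y π b.val (π' b).val) (hT : T π b → T π' b) : ¬ (π b).val < (π' b).val := by
  intro hlt
  have pos : ∀ x : Fin n, x.val ≤ b.val → (π b).val < (π' x).val →
      (π.symm (π' x)).val < b.val := by
    intro x hx hx2
    by_contra hc
    rcases Nat.lt_or_ge b.val (π.symm (π' x)).val with h | h
    · have := hag _ h
      rw [Equiv.apply_symm_apply] at this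
      have := π'.injective this
      rw [← this] at h
      omega
    · have e : π.symm (π' x) = b := Fin.ext (by omega)
      have : π' x = π b := by rw [← e, Equiv.apply_symm_apply]
      rw [this] at hx2
      omega
  have p1 := pos b le_rfl hlt
  have hTb : T π b := ⟨π.symm (π' b), p1, by rw [Equiv.apply_symm_apply]; exact hlt,
    by rw [Equiv.apply_symm_apply]; exact hred⟩
  obtain ⟨a, h1, h2, h3⟩ := hT hTb
  have p2 := pos a (by omega) (by omega)
  have e1 := T_adj hA p1 (by rw [Equiv.apply_symm_apply]; exact hlt)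
    (by rw [Equiv.apply_symm_apply]; exact hred)
  have e2 := T_adj hA p2 (by rw [Equiv.apply_symm_apply]; omega)
    (by rw [Equiv.apply_symm_apply, hY]; exact h3)
  have e : π.symm (π' b) = π.symm (π' a) := Fin.ext (by omega)
  have := π'.injective (π.symm.injective e)
  rw [this] at h1
  omega

lemma rel_unique {π π' ρ : Equiv.Perm (Fin n)} (hA : A π) (hA' : A π') (h : Rel π ρ)
    (h' : Rel π' ρ) : π = π' := by
  obtain ⟨y1, w1, r1, u1⟩ := h
  obtain ⟨y2, w2, r2, u2⟩ := h'
  have hY : ∀ i v, Y π i v ↔ Y π' i v := fun i v => (y1 i v).symm.trans (y2 i v)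
  have hS : ∀ b, S π b ↔ S π' b := fun b => (u1 b).symm.trans (u2 b)
  have hred : ∀ i : Fin n, Y π i.val (π i).val ↔ Y π' i.val (π' i).val := by
    intro i
    constructor
    · intro hi
      by_contra hc
      have := r1 i hi
      rw [w2 i hc, hY] at this
      exact hc this
    · intro hi
      by_contra hc
      have := r2 i hi
      rw [w1 i hc, ← hY] at this
      exact hc this
  have key : ∀ N, ∀ i : Fin n, n - N ≤ i.val → π i = π' i := by
    intro N
    induction N with
    | zero => intro i hi; have := i.isLt; omega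
    | succ N ih =>
      intro b hb
      by_cases hb' : n - N ≤ b.val
      · exact ih b hb'
      have hag : ∀ i : Fin n, b.val < i.val → π i = π' i := fun i hi => ih i (by omega)
      by_cases hr : Y π b.val (π b).val
      swap
      · rw [← w1 b hr, w2 b (fun hc => hr ((hred b).2 hc))]
      have hr' := (hred b).1 hr
      have hTc : ∀ c : Fin n, c.val = b.val + 1 → (T π c ↔ T π' c) := by
        intro c hc
        exact ⟨T_transfer hY (fun i hi => hag i (by omega)),
          T_transfer (fun i v => (hY i v).symm) (fun i hi => (hag i (by omega)).symm)⟩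
      by_cases hc : ∃ c : Fin n, c.val = b.val + 1 ∧ T π c
      · obtain ⟨c, hc1, hc2⟩ := hc
        obtain ⟨a, g1, g2, g3⟩ := (hTc c hc1).1 hc2
        have e := T_adj hA' g1 g2 g3
        have eab : a = b := Fin.ext (by omega)
        subst eab
        have p : (π.symm (π' a)).val < c.val := by
          by_contra hcc
          have := hag (π.symm (π' a)) (by omega)
          rw [Equiv.apply_symm_apply] at this
          have := π'.injective this
          rw [← this] at hcc
          omega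
        have e2 := T_adj hA p (by rw [Equiv.apply_symm_apply, hag c (by omega)]; exact g2)
          (by rw [Equiv.apply_symm_apply, hY]; exact g3)
        have e3 : π.symm (π' a) = a := Fin.ext (by omega)
        rw [← e3, Equiv.apply_symm_apply, e3]
      · have hc' : ¬ ∃ c : Fin n, c.val = b.val + 1 ∧ T π' c := by
          rintro ⟨c, hc1, hc2⟩
          exact hc ⟨c, hc1, (hTc c hc1).2 hc2⟩
        have t1 : T π b → T π' b := fun ht => ((hS b).1 ⟨ht, hc⟩).1
        have t2 : T π' b → T π b := fun ht => ((hS b).2 ⟨ht, hc'⟩).1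
        have n1 := step_aux hA hY hag ((hY _ _).2 hr') t1
        have n2 := step_aux hA' (fun i v => (hY i v).symm) (fun i hi => (hag i hi).symm)
          ((hY _ _).1 hr) t2
        exact Fin.ext (by omega)
  ext i
  rw [key n i (by omega)]

open Classical in
/-- sorting key: positions `b-1, b` are swapped for `b ∈ S` -/
noncomputable def key (π : Equiv.Perm (Fin n)) (i : Fin n) : ℕ :=
  if ∃ c : Fin n, c.val = i.val + 1 ∧ S π c then 2 * i.val + 3 else 2 * i.val

/-- the cut shape -/
def Y' (π : Equiv.Perm (Fin n)) (i : Fin n) (v : ℕ) : Prop :=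
  Y π i.val v ∧ ((∃ c : Fin n, c.val = i.val + 1 ∧ S π c) → Y π (i.val + 1) v)

lemma Y'.mono {π : Equiv.Perm (Fin n)} {a b : Fin n} {v : ℕ} (h : Y' π b v)
    (hk : key π a < key π b) : Y' π a v := by
  obtain ⟨h1, h2⟩ := h
  unfold key at hk
  split_ifs at hk with c1 c2 c2
  · exact ⟨h1.mono (by omega) le_rfl, fun _ => h1.mono (by omega) le_rfl⟩
  · exact ⟨h1.mono (by omega) le_rfl, fun _ => h1.mono (by omega) le_rfl⟩
  · exact ⟨(h2 c2).mono (by omega) le_rfl, fun h => absurd h c1⟩
  · exact ⟨h1.mono (by omega) le_rfl, fun h => absurd h c1⟩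

def Cls (π ρ : Equiv.Perm (Fin n)) : Prop :=
  (∀ i : Fin n, ¬ Y π i.val (π i).val → ρ i = π i) ∧
  (∀ i : Fin n, Y π i.val (π i).val → Y' π i (ρ i).val)

lemma cls_self {π : Equiv.Perm (Fin n)} (hA : A π) : Cls π π := by
  refine ⟨fun _ _ => rfl, fun i hi => ⟨hi, ?_⟩⟩
  rintro ⟨c, hc, ⟨a, h1, h2, h3⟩, -⟩
  have e := T_adj hA h1 h2 h3
  have : a = i := Fin.ext (by omega)
  subst this
  rw [← hc]; exact h3

lemma sum_swap_lt (k : Fin n → ℕ) (ρ : Equiv.Perm (Fin n)) {a b : Fin n} (hk : k a < k b)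
    (hv : (ρ a).val < (ρ b).val) :
    ∑ i, k i * ((ρ * Equiv.swap a b) i).val < ∑ i, k i * (ρ i).val := by
  have hab : a ≠ b := by rintro rfl; omega
  rw [← Finset.add_sum_erase _ _ (Finset.mem_univ a),
    ← Finset.add_sum_erase _ _ (Finset.mem_univ a),
    ← Finset.add_sum_erase _ _ (Finset.mem_erase.2 ⟨hab.symm, Finset.mem_univ b⟩),
    ← Finset.add_sum_erase _ _ (Finset.mem_erase.2 ⟨hab.symm, Finset.mem_univ b⟩)]
  have : ∑ x ∈ (Finset.univ.erase a).erase b, k x * ((ρ * Equiv.swap a b) x).val =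
      ∑ x ∈ (Finset.univ.erase a).erase b, k x * (ρ x).val := by
    apply Finset.sum_congr rfl
    intro x hx
    simp only [Finset.mem_erase] at hx
    rw [Equiv.Perm.mul_apply, Equiv.swap_apply_of_ne_of_ne hx.2.1 hx.1]
  rw [this]
  simp only [Equiv.Perm.mul_apply, Equiv.swap_apply_left, Equiv.swap_apply_right]
  nlinarith

lemma exists_sorted {π : Equiv.Perm (Fin n)} (hA : A π) :
    ∃ ρ, Cls π ρ ∧ ∀ a b : Fin n, Y π a.val (π a).val → Y π b.val (π b).val →
      key π a < key π b → (ρ b).val < (ρ a).val := by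
  classical
  obtain ⟨ρ, hρ, hmin⟩ := Finset.exists_min_image (Finset.univ.filter (Cls π))
    (fun ρ => ∑ i, key π i * (ρ i).val) ⟨π, by simp [cls_self hA]⟩
  simp only [Finset.mem_filter, Finset.mem_univ, true_and] at hρ hmin
  refine ⟨ρ, hρ, fun a b ha hb hk => ?_⟩
  by_contra hc
  have hab : a ≠ b := by rintro rfl; omega
  have hne := val_ne (π := ρ) (a := a) (b := b) (fun h => hab (Fin.ext h))
  have hv : (ρ a).val < (ρ b).val := by omega
  have hcls : Cls π (ρ * Equiv.swap a b) := by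
    constructor
    · intro i hi
      have h1 : i ≠ a := by rintro rfl; exact hi ha
      have h2 : i ≠ b := by rintro rfl; exact hi hb
      rw [Equiv.Perm.mul_apply, Equiv.swap_apply_of_ne_of_ne h1 h2]
      exact hρ.1 i hi
    · intro i hi
      by_cases h1 : i = a
      · subst h1
        rw [Equiv.Perm.mul_apply, Equiv.swap_apply_left]
        exact (hρ.2 b hb).mono hk
      · by_cases h2 : i = b
        · subst h2
          rw [Equiv.Perm.mul_apply, Equiv.swap_apply_right]
          obtain ⟨g1, g2⟩ := hρ.2 i hb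
          exact ⟨g1.mono le_rfl hv.le, fun h => (g2 h).mono le_rfl hv.le⟩
        · rw [Equiv.Perm.mul_apply, Equiv.swap_apply_of_ne_of_ne h1 h2]
          exact hρ.2 i hi
  have := hmin _ hcls
  have := sum_swap_lt (key π) ρ hk hv
  omega

lemma rel_exists {π : Equiv.Perm (Fin n)} (hA : A π) : ∃ ρ, B ρ ∧ Rel π ρ := by
  obtain ⟨ρ, ⟨hw, hr⟩, hs⟩ := exists_sorted hA
  have hY : ∀ i v, Y ρ i v ↔ Y π i v := Y_eq hw (fun i hi => (hr i hi).1)
  have hred : ∀ i : Fin n, Y π i.val (ρ i).val → Y π i.val (π i).val := by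
    intro i hi
    by_contra hc
    rw [hw i hc] at hi
    exact hc hi
  refine ⟨ρ, ?_, hY, hw, fun i hi => (hr i hi).1, ?_⟩
  · intro a b hab hv hy
    rw [hY] at hy
    have hb := hred b hy
    have ha := hred a (hy.mono (by omega) hv.le)
    have hk : key π a < key π b := by
      unfold key
      split_ifs <;> omega
    have := hs a b ha hb hk
    omega
  · intro b
    constructor
    · rintro ⟨h1, a, h2, h3⟩
      rw [hY] at h1
      have hb := hred b h1
      have ha := hred a (h1.mono (by omega) h3.le)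
      by_contra hS
      have hk : key π a < key π b := by
        unfold key
        have : ¬ ∃ c : Fin n, c.val = a.val + 1 ∧ S π c := by
          rintro ⟨c, hc1, hc2⟩
          have : c = b := Fin.ext (by omega)
          exact hS (this ▸ hc2)
        rw [if_neg this]
        split_ifs <;> omega
      have := hs a b ha hb hk
      omega
    · intro hS
      obtain ⟨⟨a, h1, h2, h3⟩, hS2⟩ := id hS
      have e := T_adj hA h1 h2 h3
      have hb : Y π b.val (π b).val := h3.mono le_rfl h2.le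
      have ha : Y π a.val (π a).val := h3.mono h1.le le_rfl
      refine ⟨(hY _ _).2 (hr b hb).1, a, e, ?_⟩
      have hk : key π b < key π a := by
        unfold key
        have c1 : ¬ ∃ c : Fin n, c.val = b.val + 1 ∧ S π c := by
          rintro ⟨c, hc1, hc2⟩
          exact hS2 ⟨c, hc1, hc2.1⟩
        have c2 : ∃ c : Fin n, c.val = a.val + 1 ∧ S π c := ⟨b, e.symm, hS⟩
        rw [if_neg c1, if_pos c2]
        omega
      exact hs b a hb ha hk

/-- the extra permutation `n-1, …, 8, 3, 7, 0, 1, 5, 6, 4, 2` as a function on `ℕ` -/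
def g (k i : ℕ) : ℕ :=
  if i < k then k + 7 - i else
  if i = k then 3 else if i = k + 1 then 7 else if i = k + 2 then 0 else if i = k + 3 then 1 else
  if i = k + 4 then 5 else if i = k + 5 then 6 else if i = k + 6 then 4 else 2

lemma g_cases (k i : ℕ) (hi : i < k + 8) :
    (i < k ∧ g k i = k + 7 - i) ∨ (i = k ∧ g k i = 3) ∨ (i = k + 1 ∧ g k i = 7) ∨
    (i = k + 2 ∧ g k i = 0) ∨ (i = k + 3 ∧ g k i = 1) ∨ (i = k + 4 ∧ g k i = 5) ∨
    (i = k + 5 ∧ g k i = 6) ∨ (i = k + 6 ∧ g k i = 4) ∨ (i = k + 7 ∧ g k i = 2) := by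
  unfold g
  split_ifs <;> omega

noncomputable def beta (k : ℕ) : Equiv.Perm (Fin (k + 8)) :=
  Equiv.ofBijective (fun i => ⟨g k i.val, by have := g_cases k i.val i.isLt; omega⟩)
    (Finite.injective_iff_bijective.1 (by
      intro a b h
      have h' : g k a.val = g k b.val := congrArg Fin.val h
      have := g_cases k a.val a.isLt
      have := g_cases k b.val b.isLt
      exact Fin.ext (by omega)))

lemma beta_val (k : ℕ) (i : Fin (k + 8)) : (beta k i).val = g k i.val := rfl

lemma beta_Y (k : ℕ) (i v : ℕ) (h : Y (beta k) i v) :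
    (v < 2 ∧ i ≤ k + 3) ∨ (v < 4 ∧ i ≤ k + 2) ∨ (v < 6 ∧ i + 1 ≤ k) ∨
      (i + 2 ≤ k ∧ v + i < k + 5) := by
  obtain ⟨j, l, h1, h2, h3, h4⟩ := h
  rw [beta_val] at h3 h4
  rw [beta_val] at h4
  have := g_cases k j.val j.isLt
  have := g_cases k l.val l.isLt
  omega

lemma beta_B (k : ℕ) : B (beta k) := by
  intro a b hab hv hy
  have := beta_Y k _ _ hy
  rw [beta_val] at hv this
  rw [beta_val] at hv
  have := g_cases k a.val a.isLt
  have := g_cases k b.val b.isLt
  omega

lemma beta_not_rel (k : ℕ) (π : Equiv.Perm (Fin (k + 8))) (hA : A π) : ¬ Rel π (beta k) := by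
  rintro ⟨hY, hw, hr, hU⟩
  have e0 : g k k = 3 := by have := g_cases k k (by omega); omega
  have e2 : g k (k + 2) = 0 := by have := g_cases k (k + 2) (by omega); omega
  have e3 : g k (k + 3) = 1 := by have := g_cases k (k + 3) (by omega); omega
  have e4 : g k (k + 4) = 5 := by have := g_cases k (k + 4) (by omega); omega
  have e5 : g k (k + 5) = 6 := by have := g_cases k (k + 5) (by omega); omega
  have e6 : g k (k + 6) = 4 := by have := g_cases k (k + 6) (by omega); omega
  have e7 : g k (k + 7) = 2 := by have := g_cases k (k + 7) (by omega); omega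
  have hU3 : U (beta k) ⟨k + 3, by omega⟩ := by
    refine ⟨⟨⟨k + 5, by omega⟩, ⟨k + 7, by omega⟩, ?_, ?_, ?_, ?_⟩, ⟨k + 2, by omega⟩, rfl, ?_⟩ <;>
      simp only [beta_val] <;> omega
  have hY3 : Y π (k + 2) 3 := by
    rw [← hY]
    refine ⟨⟨k + 4, by omega⟩, ⟨k + 6, by omega⟩, ?_, ?_, ?_, ?_⟩ <;>
      simp only [beta_val] <;> omega
  obtain ⟨⟨a, h1, h2, h3⟩, -⟩ := (hU _).1 hU3
  have ea := T_adj hA h1 h2 h3
  have h3' := beta_Y k _ _ ((hY _ _).2 h3)
  simp only at h1 ea h3'
  -- the position of the value 3 in π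
  set p : Fin (k + 8) := π.symm ⟨3, by omega⟩ with hp
  have hp3 : (π p).val = 3 := by rw [hp, Equiv.apply_symm_apply]
  have hpk : p.val = k := by
    have := g_cases k p.val p.isLt
    by_cases hc : Y π p.val (π p).val
    · have h5 := beta_Y k _ _ ((hY _ _).2 (hr p hc))
      rw [beta_val] at h5
      have h6 : p.val ≠ k + 2 := by
        intro h6
        have : p = a := Fin.ext (by omega)
        rw [this] at hp3
        omega
      have h7 : p.val ≠ k + 3 := by
        intro h7
        have : p = ⟨k + 3, by omega⟩ := Fin.ext h7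
        rw [this] at hp3
        omega
      omega
    · have h5 := congrArg Fin.val (hw p hc)
      rw [beta_val, hp3] at h5
      omega
  refine hA p a (by omega) (by omega) ?_
  rw [hp3]
  exact hY3.mono (by omega) le_rfl

theorem main (n : ℕ) (hn : 8 ≤ n) : avCount 1 ![2, 1, 4, 3] n < avCount 1 ![1, 2, 4, 3] n := by
  classical
  obtain ⟨k, rfl⟩ : ∃ k, n = k + 8 := ⟨n - 8, by omega⟩
  unfold avCount
  rw [Nat.card_eq_fintype_card, Nat.card_eq_fintype_card]
  have hex : ∀ π : {π : Equiv.Perm (Fin (k + 8)) // ¬ ContainsDist 1 ![2, 1, 4, 3] π},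
      ∃ ρ : {π : Equiv.Perm (Fin (k + 8)) // ¬ ContainsDist 1 ![1, 2, 4, 3] π}, Rel π.1 ρ.1 := by
    rintro ⟨π, hπ⟩
    obtain ⟨ρ, h1, h2⟩ := rel_exists ((contains_2143 π).1 hπ)
    exact ⟨⟨ρ, (contains_1243 ρ).2 h1⟩, h2⟩
  choose f hf using hex
  apply Fintype.card_lt_of_injective_not_surjective f
  · intro π π' h
    apply Subtype.ext
    exact rel_unique ((contains_2143 _).1 π.2) ((contains_2143 _).1 π'.2) (hf π) (h ▸ hf π')
  · intro hs
    obtain ⟨π, hπ⟩ := hs ⟨beta k, (contains_1243 _).2 (beta_B k)⟩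
    have := hf π
    rw [hπ] at this
    exact beta_not_rel k π.1 ((contains_2143 _).1 π.2) this

end Pool.Agent.Lib.MP_0bc917_co
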