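import Mathlib
import Pool.Agent.Lib.MP_0bc917_co.Main
import Pool.Agent.Lib.MP_0bc917_co.Gen1

namespace Pool.Agent.Lib.MP_0bc917_co.Gen

open Classical

variable {n l : ℕ} {r : ℕ} {σ : Fin l → ℕ}

variable (r σ) in
def Cls (π ρ : Equiv.Perm (Fin n)) : Prop :=
  (∀ i : Fin n, ¬ Y r σ π i.val (π i).val → ρ i = π i) ∧
  (∀ i : Fin n, Y r σ π i.val (π i).val → Y r σ π (SS r σ π i.val (π i).val) (ρ i).val)

lemma exists_sorted (π : Equiv.Perm (Fin n)) :
    ∃ ρ, Cls r σ π ρ ∧ ∀ a b : Fin n, Y r σ π a.val (π a).val → Y r σ π b.val (π b).val →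
      key r σ π a < key r σ π b → (ρ b).val < (ρ a).val := by
  obtain ⟨ρ, hρ, hmin⟩ := Finset.exists_min_image (Finset.univ.filter (Cls r σ π))
    (fun ρ => ∑ i, key r σ π i * (ρ i).val)
    ⟨π, by
      rw [Finset.mem_filter]
      exact ⟨Finset.mem_univ _, fun _ _ => rfl, fun i hi => Y_SS hi⟩⟩
  simp only [Finset.mem_filter, Finset.mem_univ, true_and] at hρ hmin
  refine ⟨ρ, hρ, fun a b ha hb hk => ?_⟩
  by_contra hc
  have hab : a ≠ b := by rintro rfl; omega
  have hne := val_ne (π := ρ) hab
  have hv : (ρ a).val < (ρ b).val := by omega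
  have hcls : Cls r σ π (ρ * Equiv.swap a b) := by
    constructor
    · intro i hi
      have h1 : i ≠ a := by rintro rfl; exact hi ha
      have h2 : i ≠ b := by rintro rfl; exact hi hb
      rw [Equiv.Perm.mul_apply, Equiv.swap_apply_of_ne_of_ne h1 h2]
      exact hρ.1 i hi
    · intro i hi
      by_cases h1 : i = a
      · subst h1
        rw [Equiv.Perm.mul_apply, Equiv.swap_apply_left]
        exact (hρ.2 b hb).mono (by have := key_lt.1 hk; omega) le_rfl
      · by_cases h2 : i = b
        · subst h2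
          rw [Equiv.Perm.mul_apply, Equiv.swap_apply_right]
          exact (hρ.2 i hb).mono le_rfl hv.le
        · rw [Equiv.Perm.mul_apply, Equiv.swap_apply_of_ne_of_ne h1 h2]
          exact hρ.2 i hi
  have := hmin _ hcls
  have := sum_swap_lt (key r σ π) ρ hk hv
  omega

lemma rel_exists {π : Equiv.Perm (Fin n)} (hA : A r σ π) : ∃ ρ, B r σ ρ ∧ Rel r σ π ρ := by
  obtain ⟨ρ, ⟨hw, hr⟩, hs⟩ := exists_sorted (r := r) (σ := σ) π
  have hr' : ∀ i : Fin n, Y r σ π i.val (π i).val → Y r σ π i.val (ρ i).val :=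
    fun i hi => (hr i hi).mono (le_SS _ _ _) le_rfl
  have hY : ∀ i v, Y r σ ρ i v ↔ Y r σ π i v := Y_eq hw hr'
  have hred : ∀ i : Fin n, Y r σ π i.val (ρ i).val → Y r σ π i.val (π i).val := by
    intro i hi
    by_contra hc
    rw [hw i hc] at hi
    exact hc hi
  refine ⟨ρ, ?_, hY, hw, hr', hs⟩
  intro a b hab hv hy
  rw [hY] at hy
  have hb := hred b hy
  have ha := hred a (hy.mono (by omega) hv.le)
  have hk : key r σ π a < key r σ π b := by
    rw [key_lt]
    left
    have h0 := le_SS (r := r) (σ := σ) π b.val (π b).val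
    rcases SS_cases (r := r) (σ := σ) π a.val (π a).val with e | ⟨c, -, h2, h3, e⟩
    · omega
    · have : ¬ (a.val + r + 1 ≤ c.val) := fun g => hA a c g h2 h3
      omega
  have := hs a b ha hb hk
  omega

lemma chain {m : ℕ} {j : Fin m → Fin n}
    (h : ∀ a b : Fin m, b.val = a.val + 1 → (j a).val + r + 1 ≤ (j b).val) (d : ℕ) :
    ∀ a b : Fin m, b.val = a.val + d → (j a).val + d * (r + 1) ≤ (j b).val := by
  induction d with
  | zero => intro a b e; have : a = b := Fin.ext (by omega); subst this; omega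
  | succ d ih =>
    intro a b e
    have h1 := ih a ⟨a.val + d, by have := b.isLt; omega⟩ rfl
    have h2 := h ⟨a.val + d, by have := b.isLt; omega⟩ b (by simp; omega)
    rw [Nat.add_mul]
    omega

lemma exists_rank {α : Type*} [LinearOrder α] (κ : Fin n → α) (hκ : Function.Injective κ) :
    ∃ β : Equiv.Perm (Fin n), ∀ i j, β i < β j ↔ κ i < κ j := by
  have hs : StrictMono (κ ∘ Tuple.sort κ) :=
    (Tuple.monotone_sort κ).strictMono_of_injective (hκ.comp (Tuple.sort κ).injective)
  refine ⟨(Tuple.sort κ).symm, fun i j => ?_⟩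
  rw [← hs.lt_iff_lt]
  simp

/-- a permutation with three red entries that is missed by the injection -/
lemma not_rel {β π : Equiv.Perm (Fin n)} {a b c : Fin n} (hab : b.val = a.val + r + 1)
    (hbc : c.val = b.val + 1) (v1 : (β b).val < (β c).val) (v2 : (β c).val < (β a).val)
    (F1 : Y r σ β c.val (β c).val) (F2 : Y r σ β b.val (β a).val) (F3 : ¬ Y r σ β c.val (β a).val)
    (F4 : ∀ i : Fin n, Y r σ β i.val (β i).val → i = a ∨ i = b ∨ i = c) (hA : A r σ π) :
    ¬ Rel r σ π β := by
  rintro ⟨hY, hw, hr, hs⟩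
  have red : ∀ i : Fin n, Y r σ β i.val (β i).val → Y r σ π i.val (π i).val := by
    intro i hi
    by_contra hc
    rw [hY, hw i hc] at hi
    exact hc hi
  have red' : ∀ i : Fin n, Y r σ π i.val (π i).val → i = a ∨ i = b ∨ i = c :=
    fun i hi => F4 i ((hY _ _).2 (hr i hi))
  have rc := red c F1
  have rb := red b (F1.mono (by omega) v1.le)
  have hne : b ≠ c := by rintro rfl; omega
  have hk : key r σ π c < key r σ π b := by
    rcases key_total (r := r) (σ := σ) (π := π) hne with g | g
    · have := hs b c rb rc g; omega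
    · exact g
  have g1 : Y r σ π c.val (π b).val := ((key_iff (by omega)).1 hk).1
  have F3' : ¬ Y r σ π c.val (β a).val := fun g => F3 ((hY _ _).2 g)
  have pa : π a = β a := by
    have e : π (π.symm (β a)) = β a := Equiv.apply_symm_apply _ _
    by_cases hp : Y r σ π (π.symm (β a)).val (π (π.symm (β a))).val
    · rcases red' _ hp with g | g | g
      · rw [g] at e; exact e
      · rw [g] at e; rw [e] at g1; exact absurd g1 F3'
      · rw [g] at e; rw [e] at rc; exact absurd rc F3'
    · have := hw _ hp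
      rw [e] at this
      have g := β.injective this
      rw [g] at e; exact e
  refine hA a b (by omega) ?_ ?_
  · by_contra hc
    rw [pa] at hc
    exact F3' (g1.mono le_rfl (by omega))
  · rw [pa, ← hY]; exact F2

lemma B_of {β : Equiv.Perm (Fin n)} {a b c : Fin n} (hr : 1 ≤ r) (hab : b.val = a.val + r + 1)
    (hbc : c.val = b.val + 1) (v1 : (β b).val < (β c).val) (v2 : (β c).val < (β a).val)
    (F4 : ∀ i : Fin n, Y r σ β i.val (β i).val → i = a ∨ i = b ∨ i = c) : B r σ β := by
  intro x y hxy hv hy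
  rcases F4 y hy with g | g | g <;> rcases F4 x (hy.mono (by omega) hv.le) with g' | g' | g' <;>
    subst g <;> subst g' <;> omega

end Pool.Agent.Lib.MP_0bc917_co.Gen
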