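import Mathlib
import Pool.Agent.Lib.MP_0bc917_co.Gen2

namespace Pool.Agent.Lib.MP_0bc917_co.Gen

open Classical

variable {L : ℕ}

/-- relative sizes of the entries of the missed permutation -/
noncomputable def kap (r : ℕ) (σ : Fin (L + 1) → ℕ) (jm : Fin (L + 1)) (k M n i : ℕ) : ℕ :=
  if i = k + r + 1 then 0 else if i = k + r + 2 then 1 else if i = k then 3 else
  if i < k + 2 * r + 2 then M + (n - i) else
  if i = k + 2 * r + 2 + jm.val * (r + 1) + 1 then 2 else
  4 + ((if h : (i - (k + 2 * r + 2)) / (r + 1) < L + 1 then σ ⟨_, h⟩ else 0) * (r + 1) +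
    (i - (k + 2 * r + 2)) % (r + 1))

lemma kap_tail {r : ℕ} (hr : 1 ≤ r) (σ : Fin (L + 1) → ℕ) (jm : Fin (L + 1)) (k M n : ℕ)
    (j : Fin (L + 1)) (e : ℕ) (he : e ≤ r) (hne : ¬ (j = jm ∧ e = 1)) :
    kap r σ jm k M n (k + 2 * r + 2 + j.val * (r + 1) + e) = 4 + (σ j * (r + 1) + e) := by
  have e1 : k + 2 * r + 2 + j.val * (r + 1) + e - (k + 2 * r + 2) = e + (r + 1) * j.val := by
    rw [Nat.mul_comm (r + 1)]; omega
  have e2 : (e + (r + 1) * j.val) / (r + 1) = j.val := by
    rw [Nat.add_mul_div_left _ _ (by omega), Nat.div_eq_of_lt (by omega)]; omega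
  have e3 : (e + (r + 1) * j.val) % (r + 1) = e := by
    rw [Nat.add_mul_mod_self_left, Nat.mod_eq_of_lt (by omega)]
  have e4 : ¬ (k + 2 * r + 2 + j.val * (r + 1) + e = k + 2 * r + 2 + jm.val * (r + 1) + 1) := by
    intro h
    have a1 := lex_lt (n := r + 1) (s := j.val) (t := jm.val) (x := e) (y := 1) (by omega) (by omega)
    have a2 := lex_lt (n := r + 1) (s := jm.val) (t := j.val) (x := 1) (y := e) (by omega) (by omega)
    exact hne ⟨Fin.ext (by omega), by omega⟩
  unfold kap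
  rw [if_neg (by omega), if_neg (by omega), if_neg (by omega), if_neg (by omega), if_neg e4]
  simp only [e1, e2, e3, j.isLt, dif_pos]

lemma kap_cases {r : ℕ} (hr : 1 ≤ r) (σ : Fin (L + 1) → ℕ) (jm : Fin (L + 1)) (k M n i : ℕ)
    (hn : n = k + 2 * r + 2 + L * (r + 1) + 2) (hi : i < n) :
    (i = k + r + 1 ∧ kap r σ jm k M n i = 0) ∨ (i = k + r + 2 ∧ kap r σ jm k M n i = 1) ∨
    (i = k ∧ kap r σ jm k M n i = 3) ∨
    (i < k + 2 * r + 2 ∧ kap r σ jm k M n i = M + (n - i)) ∨
    (i = k + 2 * r + 2 + jm.val * (r + 1) + 1 ∧ kap r σ jm k M n i = 2) ∨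
    ∃ (j : Fin (L + 1)) (e : ℕ), e ≤ r ∧ i = k + 2 * r + 2 + j.val * (r + 1) + e ∧
      kap r σ jm k M n i = 4 + (σ j * (r + 1) + e) := by
  by_cases h1 : i = k + r + 1
  · left; exact ⟨h1, by unfold kap; rw [if_pos h1]⟩
  by_cases h2 : i = k + r + 2
  · right; left; exact ⟨h2, by unfold kap; rw [if_neg h1, if_pos h2]⟩
  by_cases h3 : i = k
  · right; right; left; exact ⟨h3, by unfold kap; rw [if_neg h1, if_neg h2, if_pos h3]⟩
  by_cases h4 : i < k + 2 * r + 2
  · right; right; right; left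
    exact ⟨h4, by unfold kap; rw [if_neg h1, if_neg h2, if_neg h3, if_pos h4]⟩
  by_cases h5 : i = k + 2 * r + 2 + jm.val * (r + 1) + 1
  · right; right; right; right; left
    exact ⟨h5, by unfold kap; rw [if_neg h1, if_neg h2, if_neg h3, if_neg h4, if_pos h5]⟩
  right; right; right; right; right
  have hd := Nat.div_add_mod (i - (k + 2 * r + 2)) (r + 1)
  have hm := Nat.mod_lt (i - (k + 2 * r + 2)) (show 0 < r + 1 by omega)
  have hj : (i - (k + 2 * r + 2)) / (r + 1) < L + 1 := by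
    rw [Nat.div_lt_iff_lt_mul (by omega), Nat.add_mul]; omega
  have hi' : i = k + 2 * r + 2 + (i - (k + 2 * r + 2)) / (r + 1) * (r + 1) +
      (i - (k + 2 * r + 2)) % (r + 1) := by
    rw [Nat.mul_comm _ (r + 1)]; omega
  refine ⟨⟨_, hj⟩, (i - (k + 2 * r + 2)) % (r + 1), by omega, hi', ?_⟩
  have := kap_tail hr σ jm k M n ⟨_, hj⟩ ((i - (k + 2 * r + 2)) % (r + 1)) (by omega) (by
    rintro ⟨g1, g2⟩
    apply h5
    rw [g2] at hi'
    rw [← g1]
    exact hi')
  rw [← this]
  exact congrArg _ hi'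

theorem exists_missed {r : ℕ} (hr : 1 ≤ r) (σ : Fin (L + 1) → ℕ) (hσ : Function.Injective σ)
    (n : ℕ) (hn : (L + 2) * (r + 1) + 2 ≤ n) :
    ∃ β : Equiv.Perm (Fin n), B r σ β ∧ ∀ π, A r σ π → ¬ Rel r σ π β := by
  obtain ⟨k, hk⟩ : ∃ k, n = k + 2 * r + 2 + L * (r + 1) + 2 :=
    ⟨n - ((L + 2) * (r + 1) + 2), by rw [Nat.add_mul] at hn ⊢; omega⟩
  obtain ⟨jm, -, hjm⟩ := Finset.exists_min_image Finset.univ σ Finset.univ_nonempty
  obtain ⟨jx, -, hjx⟩ := Finset.exists_max_image Finset.univ σ Finset.univ_nonempty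
  set M := 4 + (σ jx * (r + 1) + (r + 1)) with hM
  have hb : ∀ j : Fin (L + 1), σ j * (r + 1) ≤ σ jx * (r + 1) :=
    fun j => Nat.mul_le_mul_right _ (hjx j (Finset.mem_univ _))
  have hjL : ∀ j : Fin (L + 1), j.val * (r + 1) ≤ L * (r + 1) :=
    fun j => Nat.mul_le_mul_right _ (by have := j.isLt; omega)
  have cs := fun i : Fin n => kap_cases hr σ jm k M n i.val hk i.isLt
  obtain ⟨β, hβ⟩ := exists_rank (fun i : Fin n => kap r σ jm k M n i.val) (by
    intro x y h
    simp only at h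
    have hx := x.isLt
    have hy := y.isLt
    apply Fin.ext
    rcases cs x with g | g | g | g | g | ⟨j, e, g1, g2, g3⟩ <;>
      rcases cs y with g' | g' | g' | g' | g' | ⟨j', e', g1', g2', g3'⟩ <;>
      try omega
    · have := hb j'; omega
    · have := hb j; omega
    · have a1 := lex_lt (n := r + 1) (s := σ j) (t := σ j') (x := e) (y := e') (by omega) (by omega)
      have a2 := lex_lt (n := r + 1) (s := σ j') (t := σ j) (x := e') (y := e) (by omega) (by omega)
      have : j = j' := hσ (by omega)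
      subst this
      omega)
  simp only [Fin.lt_def] at hβ
  let a : Fin n := ⟨k, by omega⟩
  let b : Fin n := ⟨k + r + 1, by omega⟩
  let c : Fin n := ⟨k + r + 2, by omega⟩
  have ka : kap r σ jm k M n a.val = 3 := by
    unfold kap; rw [if_neg (by simp [a]; omega), if_neg (by simp [a]; omega), if_pos rfl]
  have kb : kap r σ jm k M n b.val = 0 := by unfold kap; rw [if_pos rfl]
  have kc : kap r σ jm k M n c.val = 1 := by
    unfold kap; rw [if_neg (by simp [c]), if_pos rfl]
  have k2 : kap r σ jm k M n (k + 2 * r + 2 + jm.val * (r + 1) + 1) = 2 := by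
    unfold kap
    rw [if_neg (by omega), if_neg (by omega), if_neg (by omega), if_neg (by omega), if_pos rfl]
  have v1 : (β b).val < (β c).val := (hβ b c).2 (by omega)
  have v2 : (β c).val < (β a).val := (hβ c a).2 (by omega)
  have gap : ∀ (e : ℕ) (x y : Fin (L + 1)), y.val = x.val + 1 →
      k + 2 * r + 2 + x.val * (r + 1) + e + r + 1 ≤ k + 2 * r + 2 + y.val * (r + 1) + e := by
    intro e x y h
    rw [h, Nat.add_mul]; omega
  have F1 : Y r σ β c.val (β c).val := by
    refine ⟨fun j => ⟨k + 2 * r + 2 + j.val * (r + 1) + 1, by have := hjL j; omega⟩,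
      gap 1, fun x y => ?_, fun x => ⟨by simp only [c]; omega, ?_⟩⟩
    · rw [Fin.lt_def, hβ]
      simp only
      have m1 := hjm x (Finset.mem_univ _)
      have m2 := hjm y (Finset.mem_univ _)
      by_cases hx : x = jm <;> by_cases hy : y = jm
      · subst hx; subst hy; omega
      · rw [kap_tail hr σ jm k M n y 1 hr (by simp [hy]), hx, k2]
        have : σ jm ≠ σ y := fun g => hy (hσ g).symm
        omega
      · rw [kap_tail hr σ jm k M n x 1 hr (by simp [hx]), hy, k2]
        omega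
      · rw [kap_tail hr σ jm k M n x 1 hr (by simp [hx]),
          kap_tail hr σ jm k M n y 1 hr (by simp [hy])]
        have := lex_lt (n := r + 1) (s := σ x) (t := σ y) (x := 1) (y := 1) (by omega) (by omega)
        omega
    · rw [hβ, kc]
      simp only
      by_cases hx : x = jm
      · rw [hx, k2]; omega
      · rw [kap_tail hr σ jm k M n x 1 hr (by simp [hx])]; omega
  have F2 : Y r σ β b.val (β a).val := by
    refine ⟨fun j => ⟨k + 2 * r + 2 + j.val * (r + 1) + 0, by have := hjL j; omega⟩,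
      gap 0, fun x y => ?_, fun x => ⟨by simp only [b]; omega, ?_⟩⟩
    · rw [Fin.lt_def, hβ]
      simp only
      rw [kap_tail hr σ jm k M n x 0 (by omega) (by simp),
        kap_tail hr σ jm k M n y 0 (by omega) (by simp)]
      have := lex_lt (n := r + 1) (s := σ x) (t := σ y) (x := 0) (y := 0) (by omega) (by omega)
      omega
    · rw [hβ, ka]
      simp only
      rw [kap_tail hr σ jm k M n x 0 (by omega) (by simp)]; omega
  have F3 : ¬ Y r σ β c.val (β a).val := by
    rintro ⟨j, h1, -, h3⟩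
    have c1 := chain h1 jm.val 0 jm (by simp)
    have c2 := chain h1 (L - jm.val) jm (Fin.last L) (by have := jm.isLt; simp; omega)
    have c3 := (h3 0).1
    have c4 := (j (Fin.last L)).isLt
    have c5 : (L - jm.val) * (r + 1) + jm.val * (r + 1) = L * (r + 1) := by
      rw [← Nat.add_mul]; congr 1; have := jm.isLt; omega
    have c6 : (j jm).val = k + 2 * r + 2 + jm.val * (r + 1) + 1 := by
      simp only [c] at c3; omega
    have c7 := (hβ _ _).1 (h3 jm).2
    rw [ka, c6, k2] at c7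
    omega
  have F4 : ∀ i : Fin n, Y r σ β i.val (β i).val → i = a ∨ i = b ∨ i = c := by
    rintro i ⟨j, h1, -, h3⟩
    have c2 := chain h1 L 0 (Fin.last L) (by simp)
    have c3 := (h3 0).1
    have c4 := (j (Fin.last L)).isLt
    have c7 := (hβ _ _).1 (h3 0).2
    rcases cs i with g | g | g | g | g | ⟨j', e, g1, g2, g3⟩
    · exact Or.inr (Or.inl (Fin.ext g.1))
    · exact Or.inr (Or.inr (Fin.ext g.1))
    · exact Or.inl (Fin.ext g.1)
    · exfalso
      have := (j 0).isLt
      rcases cs (j 0) with g' | g' | g' | g' | g' | ⟨j'', e', g1', g2', g3'⟩ <;> try omega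
      have := hb j''
      omega
    · omega
    · omega
  exact ⟨β, B_of hr rfl rfl v1 v2 F4, fun π hA => not_rel rfl rfl v1 v2 F1 F2 F3 F4 hA⟩

theorem card_lt {r : ℕ} (hr : 1 ≤ r) (σ : Fin (L + 1) → ℕ) (hσ : Function.Injective σ)
    (n : ℕ) (hn : (L + 2) * (r + 1) + 2 ≤ n) :
    Nat.card {π : Equiv.Perm (Fin n) // A r σ π} < Nat.card {π : Equiv.Perm (Fin n) // B r σ π} := by
  rw [Nat.card_eq_fintype_card, Nat.card_eq_fintype_card]
  have hex : ∀ π : {π : Equiv.Perm (Fin n) // A r σ π},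
      ∃ ρ : {π : Equiv.Perm (Fin n) // B r σ π}, Rel r σ π.1 ρ.1 := by
    rintro ⟨π, hπ⟩
    obtain ⟨ρ, h1, h2⟩ := rel_exists hπ
    exact ⟨⟨ρ, h1⟩, h2⟩
  choose f hf using hex
  apply Fintype.card_lt_of_injective_not_surjective f
  · intro π π' h
    exact Subtype.ext (rel_unique (hf π) (h ▸ hf π'))
  · intro hs
    obtain ⟨β, h1, h2⟩ := exists_missed hr σ hσ n hn
    obtain ⟨π, hπ⟩ := hs ⟨β, h1⟩
    have := hf π
    rw [hπ] at this
    exact h2 π.1 π.2 this

end Pool.Agent.Lib.MP_0bc917_co.Gen
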