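import Mathlib
import Pool.Agent.Lib.MP_0bc917_co.Gen3

namespace Pool.Agent.Lib.MP_0bc917_co.Gen

open Classical

lemma contains_iff {n l r : ℕ} (q : Fin (l + 2) → ℕ) (h0 : ∀ j : Fin l, q 0 < q j.succ.succ)
    (h1 : ∀ j : Fin l, q 1 < q j.succ.succ) (hne : q 0 ≠ q 1) (π : Equiv.Perm (Fin n)) :
    ContainsDist r q π ↔ ∃ a b : Fin n, a.val + r + 1 ≤ b.val ∧
      ((π a).val < (π b).val ↔ q 0 < q 1) ∧
      Y r (fun j : Fin l => q j.succ.succ) π b.val (max (π a).val (π b).val) := by
  constructor
  · rintro ⟨i, g1, g2⟩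
    refine ⟨i 0, i 1, g1 0 1 (by simp), g2 0 1, fun j => i j.succ.succ, fun a b h => ?_,
      fun a b => g2 _ _, fun a => ⟨?_, ?_⟩⟩
    · exact g1 _ _ (by simp [h])
    · have := chain g1 (a.val + 1) 1 a.succ.succ (by simp; omega)
      rw [Nat.add_mul] at this
      simp only
      omega
    · exact max_lt ((g2 0 _).2 (h0 a)) ((g2 1 _).2 (h1 a))
  · rintro ⟨a, b, g1, g2, j, g3, g4, g5⟩
    have hab : a ≠ b := by rintro rfl; omega
    have hv := val_ne (π := π) hab
    refine ⟨Fin.cons a (Fin.cons b j), fun x y => ?_, fun x y => ?_⟩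
    · refine Fin.cases ?_ (fun x => Fin.cases ?_ (fun x => ?_) x) x <;>
        refine Fin.cases ?_ (fun y => Fin.cases ?_ (fun y => ?_) y) y <;> intro h <;>
        simp only [Fin.val_zero, Fin.val_succ, Fin.cons_zero, Fin.cons_succ] at h ⊢ <;>
        first
          | omega
          | exact (g5 _).1
          | exact g3 _ _ (by omega)
    · have e1 : (Fin.succ (0 : Fin (l + 1))) = 1 := by simp
      refine Fin.cases ?_ (fun x => Fin.cases ?_ (fun x => ?_) x) x <;>
        refine Fin.cases ?_ (fun y => Fin.cases ?_ (fun y => ?_) y) y <;>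
        simp only [Fin.cons_zero, Fin.cons_succ]
      · simp
      · rw [e1]; exact g2
      · have := (g5 y).2; have := h0 y; rw [Fin.lt_def]; omega
      · rw [e1, Fin.lt_def]; omega
      · simp
      · have := (g5 y).2; have := h1 y; rw [e1, Fin.lt_def]; omega
      · have := (g5 x).2; have := h0 x; rw [Fin.lt_def]; omega
      · have := (g5 x).2; have := h1 x; rw [e1, Fin.lt_def]; omega
      · exact g4 x y

/-- `21 ⊕ σ` is avoided strictly less often than `12 ⊕ σ`, for every non-empty `σ` and `r ≥ 1`. -/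
theorem strict {L r n : ℕ} (hr : 1 ≤ r) (q q' : Fin (L + 3) → ℕ)
    (ht : ∀ j : Fin (L + 1), q j.succ.succ = q' j.succ.succ)
    (hi : Function.Injective fun j : Fin (L + 1) => q j.succ.succ)
    (h1 : q 1 < q 0) (h2 : ∀ j : Fin (L + 1), q 0 < q j.succ.succ)
    (h3 : q' 0 < q' 1) (h4 : ∀ j : Fin (L + 1), q' 1 < q' j.succ.succ)
    (hn : (L + 2) * (r + 1) + 2 ≤ n) : avCount r q n < avCount r q' n := by
  have key := card_lt hr _ hi n hn
  have e : (fun j : Fin (L + 1) => q' j.succ.succ) = fun j : Fin (L + 1) => q j.succ.succ :=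
    funext fun j => (ht j).symm
  unfold avCount
  convert key using 3 with π π
  · funext π
    rw [contains_iff q h2 (fun j => h1.trans (h2 j)) h1.ne']
    apply propext
    constructor
    · intro h a b g1 g2 g3
      exact h ⟨a, b, g1, by omega, by rwa [max_eq_left g2.le]⟩
    · rintro h ⟨a, b, g1, g2, g3⟩
      have hab : a ≠ b := by rintro rfl; omega
      have hv := val_ne (π := π) hab
      exact h a b g1 (by omega) (g3.mono le_rfl (le_max_left _ _))
  · funext π
    rw [contains_iff q' (fun j => h3.trans (h4 j)) h4 h3.ne, e]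
    apply propext
    constructor
    · intro h a b g1 g2 g3
      exact h ⟨a, b, g1, by omega, by rwa [max_eq_right g2.le]⟩
    · rintro h ⟨a, b, g1, g2, g3⟩
      exact h a b g1 (by omega) (g3.mono le_rfl (le_max_right _ _))

lemma av_congr {m r n : ℕ} {q q' : Fin m → ℕ} (h : ∀ a b, q a < q b ↔ q' a < q' b) :
    avCount r q n = avCount r q' n := by
  unfold avCount ContainsDist
  simp only [h]

lemma av_compl {m r n : ℕ} {q q' : Fin m → ℕ} (h : ∀ a b, q a < q b ↔ q' b < q' a) :
    avCount r q n = avCount r q' n := by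
  unfold avCount
  refine Nat.card_congr (Equiv.subtypeEquiv (Equiv.mulLeft Fin.revPerm) fun π => not_congr ?_)
  unfold ContainsDist
  refine exists_congr fun i => and_congr_right fun _ => ?_
  simp only [Equiv.coe_mulLeft, Equiv.Perm.mul_apply, Fin.revPerm_apply, Fin.rev_lt_rev, h]
  exact ⟨fun g a b => g b a, fun g a b => g b a⟩

lemma rev_step {m r n : ℕ} {q : Fin m → ℕ} {π : Equiv.Perm (Fin n)} (h : ContainsDist r q π) :
    ContainsDist r (fun a => q a.rev) (π * Fin.revPerm) := by
  obtain ⟨i, h1, h2⟩ := h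
  refine ⟨fun a => (i a.rev).rev, fun a b e => ?_, fun a b => ?_⟩
  · have hb := b.isLt
    have := h1 b.rev a.rev (by simp only [Fin.val_rev]; omega)
    have := (i a.rev).isLt
    simp only [Fin.val_rev]
    omega
  · simp only [Equiv.Perm.mul_apply, Fin.revPerm_apply, Fin.rev_rev]
    exact h2 _ _

lemma av_rev {m r n : ℕ} (q : Fin m → ℕ) : avCount r q n = avCount r (fun a => q a.rev) n := by
  unfold avCount
  refine Nat.card_congr (Equiv.subtypeEquiv (Equiv.mulRight Fin.revPerm) fun π => not_congr ?_)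
  refine ⟨fun h => rev_step h, fun h => ?_⟩
  have := rev_step h
  simp only [Fin.rev_rev, Equiv.coe_mulRight] at this
  have e : π * Fin.revPerm * Fin.revPerm = π := by ext x; simp
  rwa [e] at this

theorem three {r n : ℕ} (hr : 1 ≤ r) (hn : 2 * (r + 1) + 2 ≤ n) (q : Fin 3 → ℕ)
    (hq : Function.Injective q) : avCount r ![0, 2, 1] n ≤ avCount r q n := by
  have s := strict (L := 0) hr ![1, 0, 2] ![0, 1, 2] (by decide) (by decide) (by decide)
    (by decide) (by decide) (by decide) (by omega)
  have e1 : avCount r ![1, 0, 2] n = avCount r ![1, 2, 0] n := av_compl (by decide)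
  have e2 : avCount r ![1, 2, 0] n = avCount r ![0, 2, 1] n :=
    (av_rev _).trans (av_congr (by decide))
  have e3 : avCount r ![1, 0, 2] n = avCount r ![2, 0, 1] n :=
    (av_rev _).trans (av_congr (by decide))
  have e4 : avCount r ![0, 1, 2] n = avCount r ![2, 1, 0] n := av_compl (by decide)
  have n1 : q 0 ≠ q 1 := fun h => absurd (hq h) (by decide)
  have n2 : q 0 ≠ q 2 := fun h => absurd (hq h) (by decide)
  have n3 : q 1 ≠ q 2 := fun h => absurd (hq h) (by decide)
  have cg : ∀ p : Fin 3 → ℕ, (q 0 < q 1 ↔ p 0 < p 1) → (q 1 < q 0 ↔ p 1 < p 0) →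
      (q 0 < q 2 ↔ p 0 < p 2) → (q 2 < q 0 ↔ p 2 < p 0) → (q 1 < q 2 ↔ p 1 < p 2) →
      (q 2 < q 1 ↔ p 2 < p 1) → avCount r q n = avCount r p n := by
    intro p a1 a2 a3 a4 a5 a6
    apply av_congr
    intro a b
    fin_cases a <;> fin_cases b <;> simp [*]
  rcases lt_or_gt_of_ne n1 with c1 | c1 <;> rcases lt_or_gt_of_ne n2 with c2 | c2 <;>
    rcases lt_or_gt_of_ne n3 with c3 | c3
  · rw [cg ![0, 1, 2] (by simp; omega) (by simp; omega) (by simp; omega) (by simp; omega)
      (by simp; omega) (by simp; omega)]; omega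
  · rw [cg ![0, 2, 1] (by simp; omega) (by simp; omega) (by simp; omega) (by simp; omega)
      (by simp; omega) (by simp; omega)]
  · omega
  · rw [cg ![1, 2, 0] (by simp; omega) (by simp; omega) (by simp; omega) (by simp; omega)
      (by simp; omega) (by simp; omega)]; omega
  · rw [cg ![1, 0, 2] (by simp; omega) (by simp; omega) (by simp; omega) (by simp; omega)
      (by simp; omega) (by simp; omega)]; omega
  · omega
  · rw [cg ![2, 0, 1] (by simp; omega) (by simp; omega) (by simp; omega) (by simp; omega)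
      (by simp; omega) (by simp; omega)]; omega
  · rw [cg ![2, 1, 0] (by simp; omega) (by simp; omega) (by simp; omega) (by simp; omega)
      (by simp; omega) (by simp; omega)]; omega

theorem final (m r : ℕ) (hm : 3 ≤ m) (hr : 1 ≤ r) (τ : Fin m → ℕ)
    (hτ : ∀ i, τ i = if i.val + 2 = m then m else if i.val + 1 = m then m - 1 else i.val + 1) :
    (∃ n₀ : ℕ, ∀ n > n₀, ∀ q : Equiv.Perm (Fin m),
      avCount r τ n ≤ avCount r (fun i => (q i).val) n) ↔ m = 3 := by
  constructor
  · rintro ⟨n₀, h⟩
    by_contra hm3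
    obtain ⟨L, rfl⟩ : ∃ L, m = L + 3 := ⟨m - 3, by omega⟩
    have hL : 1 ≤ L := by omega
    let p : Fin (L + 3) → ℕ := fun i => if i.val = 0 then 2 else if i.val = 1 then 1 else τ i
    have tc : ∀ i : Fin (L + 3), (i.val = L + 1 ∧ τ i = L + 3) ∨ (i.val = L + 2 ∧ τ i = L + 2) ∨
        (i.val ≤ L ∧ τ i = i.val + 1) := by
      intro i
      have := i.isLt
      rw [hτ]
      split_ifs <;> omega
    have pc : ∀ i : Fin (L + 3), (i.val = 0 ∧ p i = 2) ∨ (i.val = 1 ∧ p i = 1) ∨
        (2 ≤ i.val ∧ p i = τ i) := by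
      intro i
      simp only [p]
      split_ifs <;> omega
    have pi : Function.Injective p := by
      intro x y e
      have := tc x; have := tc y; have := pc x; have := pc y
      exact Fin.ext (by omega)
    obtain ⟨q, hq⟩ := exists_rank p pi
    have z0 : ((0 : Fin (L + 3))).val = 0 := rfl
    have z1 : ((1 : Fin (L + 3))).val = 1 := by simp
    have s := strict (L := L) (n := n₀ + 1 + ((L + 2) * (r + 1) + 2)) hr p τ
      (fun j => by have := pc j.succ.succ; simp only [Fin.val_succ] at this; omega)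
      (fun x y e => Fin.succ_injective _ (Fin.succ_injective _ (pi e)))
      (by have := pc 0; have := pc 1; omega)
      (fun j => by
        have := pc 0; have a := pc j.succ.succ; have b := tc j.succ.succ
        simp only [Fin.val_succ] at a b; omega)
      (by have := tc 0; have := tc 1; omega)
      (fun j => by
        have := tc 1; have b := tc j.succ.succ
        simp only [Fin.val_succ] at b; omega)
      (by omega)
    have := h (n₀ + 1 + ((L + 2) * (r + 1) + 2)) (by omega) q
    rw [av_congr (q := fun i => (q i).val) (q' := p) (fun a b => hq a b)] at this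
    omega
  · rintro rfl
    refine ⟨2 * (r + 1) + 2, fun n hn q => ?_⟩
    rw [av_congr (q := τ) (q' := ![0, 2, 1]) (by
      intro a b
      rw [hτ, hτ]
      revert a b
      decide)]
    exact three hr hn.le _ (fun a b e => q.injective (Fin.ext e))

end Pool.Agent.Lib.MP_0bc917_co.Gen
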