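import Mathlib
import Pool.Agent.Lib.MP_0bc917_co.Defs
import Pool.Agent.Lib.MP_0bc917_co.Main

namespace Pool.Agent.Lib.MP_0bc917_co.OldNotLeastAvoided

open Pool.Agent.Lib.MP_0bc917_co

/-- For `m = 4`, `r = 1` the pattern `τ₄ = 1243` is not the asymptotically least avoided one:
for every `n ≥ 8`, `|Av_n(dist_1(2143))| < |Av_n(dist_1(1243))|`. -/
theorem old_result (n : ℕ) (hn : 8 ≤ n) :
    avCount 1 ![2, 1, 4, 3] n < avCount 1 ![1, 2, 4, 3] n :=
  main n hn

end Pool.Agent.Lib.MP_0bc917_co.OldNotLeastAvoided
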